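import Pool.Agent.R386.ST.Var

/-!
# The Frobenius classes over linearly disjoint extensions

`K` is a number field, `A / K` an abelian variety with Sato-Tate group `G`, and `x_v ∈ G` an element of
the class of the prime `v` (any element at the finitely many exceptional primes).  For a finite extension
`F / K` with the same Sato-Tate group (every `F` if `G` is connected) the class of `A_F` at a prime `w` of
`F` of residue degree one over the prime `v` of `K` is the class of `x_v`; the other primes of `F` have
density zero.  This is the only property of abelian varieties that is used.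

`numFields K F F`, the number of fields whose product is `F ⊗_K F`, is the rank of the permutation group
of `F / K`; it is at most `[F : K]`, and it is `2` for doubly transitive groups, in particular for
extensions of degree `n` with the Galois group `S_n`, for every `n`.

The theorem says that for pairwise linearly disjoint extensions `F_k ≠ K` of `K`, every continuous class
function `f` on `G` and all large `N`, the sum over `k` of the squares of the differences of the averages
of `f` over `F_k` and over `K`, divided by `r_k - 1`, is at most the variance of `f` over `K`.  So for all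
but at most `4 / ε²` fields of a family of linearly disjoint extensions of rank two (of any degrees) the
averages of a function with values in `[-2, 2]` over `F_k` and over `K` differ by at most `ε`.

If Q1 is known for `A` over `K`, for instance for an elliptic curve without complex multiplication over a
totally real field `K`, where Q1 is open over the general extension `F_k`, the averages over `F_k` are
compared with the Haar integral, and the variance is that of `f` on `G`.
-/

set_option autoImplicit false

namespace Pool.Agent.Results.MP_c481b3_nt.AveragesOverDisjointFields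

open NumberField IsDedekindDomain Filter Topology MeasureTheory
open scoped TensorProduct

/-- The average of `φ` over the primes of `F` of norm at most `N`. -/
noncomputable def avg (F : Type) [Field F] [NumberField F] (φ : HeightOneSpectrum (𝓞 F) → ℝ)
    (N : ℕ) : ℝ :=
  (∑ᶠ w : {w : HeightOneSpectrum (𝓞 F) // Ideal.absNorm w.asIdeal ≤ N}, φ w.1) /
    (Nat.card {w : HeightOneSpectrum (𝓞 F) // Ideal.absNorm w.asIdeal ≤ N} : ℝ)

/-- The number of fields whose product is `F ⊗_K F'`. -/
noncomputable def numFields (K F F' : Type) [Field K] [Field F] [Field F'] [Algebra K F]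
    [Algebra K F'] : ℕ := Nat.card (MaximalSpectrum (F ⊗[K] F'))

section
variable {K F : Type} [Field K] [NumberField K] [Field F] [NumberField F] [Algebra K F]

/-- `y w` is a conjugate of `x v` for all but finitely many primes `w` of `F` of residue degree one over
the prime `v` of `K` below `w`. -/
def BaseChange {G : Type} [Group G] (x : HeightOneSpectrum (𝓞 K) → G)
    (y : HeightOneSpectrum (𝓞 F) → G) : Prop :=
  ∃ S : Finset (HeightOneSpectrum (𝓞 F)), ∀ w, w ∉ S → ∀ v : HeightOneSpectrum (𝓞 K),
    w.asIdeal.comap (algebraMap (𝓞 K) (𝓞 F)) = v.asIdeal →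
    Ideal.absNorm w.asIdeal = Ideal.absNorm v.asIdeal → ∃ b : G, y w = b * x v * b⁻¹

end

/-- The classes of the `y w` are equidistributed for `μ`. -/
def Equidistributed {F : Type} [Field F] [NumberField F] {G : Type} [Group G] [TopologicalSpace G]
    [MeasurableSpace G] (y : HeightOneSpectrum (𝓞 F) → G) (μ : Measure G) : Prop :=
  ∀ f : G → ℝ, Continuous f → (∀ a b, f (b * a * b⁻¹) = f a) →
    Tendsto (avg F fun w => f (y w)) atTop (𝓝 (∫ a, f a ∂μ))

section Bridge

/-- the same for functions -/
def FunBaseChange {K F : Type} [Field K] [NumberField K] [Field F] [NumberField F] [Algebra K F]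
    (h : HeightOneSpectrum (𝓞 K) → ℝ) (g : HeightOneSpectrum (𝓞 F) → ℝ) : Prop :=
  ∃ S : Finset (HeightOneSpectrum (𝓞 F)), ∀ w, w ∉ S → ∀ v : HeightOneSpectrum (𝓞 K),
    w.asIdeal.comap (algebraMap (𝓞 K) (𝓞 F)) = v.asIdeal →
    Ideal.absNorm w.asIdeal = Ideal.absNorm v.asIdeal → g w = h v

theorem bc_of {K F : Type} [Field K] [NumberField K] [Field F] [NumberField F] [Algebra K F]
    {G : Type} [Group G] {x : HeightOneSpectrum (𝓞 K) → G} {y : HeightOneSpectrum (𝓞 F) → G}
    (hbc : BaseChange x y) {f : G → ℝ} (hf : ∀ a b, f (b * a * b⁻¹) = f a) :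
    FunBaseChange (fun v => f (x v)) (fun w => f (y w)) := by
  obtain ⟨S, hS⟩ := hbc
  refine ⟨S, fun w hw v h1 h2 => ?_⟩
  obtain ⟨b, hb⟩ := hS w hw v h1 h2
  simp only
  rw [hb, hf]

theorem exists_bd {G : Type} [TopologicalSpace G] [CompactSpace G] {f : G → ℝ}
    (hf : Continuous f) : ∃ B : ℝ, ∀ a, |f a| ≤ B := by
  obtain ⟨B, hB⟩ := isCompact_univ.exists_bound_of_continuousOn hf.continuousOn
  exact ⟨B, fun a => hB a (Set.mem_univ a)⟩

end Bridge

/-- **The averages over linearly disjoint extensions.**

Let `F_k` (`k ∈ κ`, `κ` finite) be pairwise linearly disjoint finite extensions of the number field `K`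
with `r_k = numFields K F_k F_k > 1`, that is `F_k ≠ K`; let `G` be a compact group, `x` a map from the
primes of `K` to `G`, `y_k` a base change of `x` to `F_k`, and `f` a continuous class function on `G`.
For every `η > 0` and all large `N`, with averages over the primes of norm at most `N`:

1. `∑_k (avg_{F_k} (f ∘ y_k) - avg_K (f ∘ x))² / (r_k - 1) ≤ avg_K (f ∘ x)² - (avg_K (f ∘ x))² + η`;
2. if `x` is equidistributed for `μ`, then
`∑_k (avg_{F_k} (f ∘ y_k) - ∫ f dμ)² / (r_k - 1) ≤ ∫ f² dμ - (∫ f dμ)² + η`. -/
theorem result (K : Type) [Field K] [NumberField K] (κ : Type) [Fintype κ] (F : κ → Type)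
    [∀ k, Field (F k)] [∀ k, NumberField (F k)] [∀ k, Algebra K (F k)]
    (hdisj : ∀ k l, k ≠ l → IsField (F k ⊗[K] F l)) (hne : ∀ k, 1 < numFields K (F k) (F k))
    (G : Type) [Group G] [TopologicalSpace G] [CompactSpace G]
    (x : HeightOneSpectrum (𝓞 K) → G) (y : ∀ k, HeightOneSpectrum (𝓞 (F k)) → G)
    (hbc : ∀ k, BaseChange x (y k)) (f : G → ℝ) (hf : Continuous f)
    (hcl : ∀ a b, f (b * a * b⁻¹) = f a) (η : ℝ) (hη : 0 < η) :
    (∀ᶠ N : ℕ in atTop,
      ∑ k, (avg (F k) (fun w => f (y k w)) N - avg K (fun v => f (x v)) N) ^ 2 /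
          ((numFields K (F k) (F k) : ℝ) - 1) ≤
        avg K (fun v => f (x v) ^ 2) N - avg K (fun v => f (x v)) N ^ 2 + η) ∧
    (∀ [MeasurableSpace G] (μ : Measure G), Equidistributed x μ → ∀ᶠ N : ℕ in atTop,
      ∑ k, (avg (F k) (fun w => f (y k w)) N - ∫ a, f a ∂μ) ^ 2 /
          ((numFields K (F k) (F k) : ℝ) - 1) ≤
        ∫ a, f a ^ 2 ∂μ - (∫ a, f a ∂μ) ^ 2 + η) := by
  let T : Finset κ := Finset.univ
  have hdisj : ∀ k ∈ T, ∀ l ∈ T, k ≠ l → IsField (F k ⊗[K] F l) := fun k _ l _ => hdisj k l
  have hne : ∀ k ∈ T, 1 < numFields K (F k) (F k) := fun k _ => hne k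
  refine ⟨?_, ?_⟩
  · obtain ⟨B, hB⟩ := exists_bd hf
    exact Pool.Agent.R386.ST.var_ineq F T (h := fun v => f (x v))
      (g := fun k w => f (y k w)) hdisj hne (fun v => hB _) (fun k w => hB _)
      (fun k => bc_of (hbc k) hcl) hη
  · intro _ μ hx
    obtain ⟨B, hB⟩ := exists_bd hf
    have h1 := Pool.Agent.R386.ST.var_ineq F T (h := fun v => f (x v))
      (g := fun k w => f (y k w)) hdisj hne (fun v => hB _) (fun k w => hB _)
      (fun k => bc_of (hbc k) hcl) (show 0 < η / 3 by positivity)
    have h2 : Tendsto (fun N => avg K (fun v => f (x v)) N) atTop (𝓝 (∫ a, f a ∂μ)) :=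
      hx f hf hcl
    have h3 : Tendsto (fun N => avg K (fun v => f (x v) ^ 2) N) atTop
        (𝓝 (∫ a, f a ^ 2 ∂μ)) :=
      hx (fun a => f a ^ 2) (hf.pow 2) (fun a b => by simp only [hcl])
    have hd : ∀ k, ∀ N, |avg (F k) (fun w => f (y k w)) N| ≤ B := fun k N =>
      Pool.Agent.R386.ST.mean_abs_le (fun w => hB _) N
    have h4 : Tendsto (fun N => ∑ k ∈ T, ((avg (F k) (fun w => f (y k w)) N - ∫ a, f a ∂μ) ^ 2 -
        (avg (F k) (fun w => f (y k w)) N - avg K (fun v => f (x v)) N) ^ 2) /
        ((numFields K (F k) (F k) : ℝ) - 1)) atTop (𝓝 0) := by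
      have h5 : ∀ k, Tendsto (fun N => (avg (F k) (fun w => f (y k w)) N - ∫ a, f a ∂μ) ^ 2 -
        (avg (F k) (fun w => f (y k w)) N - avg K (fun v => f (x v)) N) ^ 2) atTop (𝓝 0) := by
        intro k
        have e1 : Tendsto (fun N => avg K (fun v => f (x v)) N - ∫ a, f a ∂μ) atTop (𝓝 0) := by
          have := h2.sub_const (∫ a, f a ∂μ)
          rwa [sub_self] at this
        have e2 : ∀ᶠ N in atTop, |2 * avg (F k) (fun w => f (y k w)) N - ∫ a, f a ∂μ -
            avg K (fun v => f (x v)) N| ≤ 2 * B + |∫ a, f a ∂μ| + B := by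
          refine Eventually.of_forall fun N => ?_
          have e3 : |avg K (fun v => f (x v)) N| ≤ B :=
            Pool.Agent.R386.ST.mean_abs_le (fun w => hB _) N
          refine (abs_sub _ _).trans (add_le_add ((abs_sub _ _).trans (add_le_add ?_ le_rfl)) e3)
          rw [abs_mul, abs_two]
          linarith [hd k N]
        refine (Pool.Agent.R386.ST.zero_mul_bdd e1 e2).congr fun N => ?_
        ring
      have := tendsto_finsetSum T fun k _ =>
        (h5 k).div_const ((numFields K (F k) (F k) : ℝ) - 1)
      simpa using this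
    have h6 := h3.sub (h2.pow 2)
    filter_upwards [h1, h4.eventually_le_const (show (0 : ℝ) < η / 3 by positivity),
      h6.eventually_le_const (show (∫ a, f a ^ 2 ∂μ - (∫ a, f a ∂μ) ^ 2) <
        (∫ a, f a ^ 2 ∂μ - (∫ a, f a ∂μ) ^ 2) + η / 3 by linarith)] with N e1 e2 e3
    have e4 : ∑ k ∈ T, (avg (F k) (fun w => f (y k w)) N - ∫ a, f a ∂μ) ^ 2 /
        ((numFields K (F k) (F k) : ℝ) - 1) =
        (∑ k ∈ T, ((avg (F k) (fun w => f (y k w)) N - ∫ a, f a ∂μ) ^ 2 -
        (avg (F k) (fun w => f (y k w)) N - avg K (fun v => f (x v)) N) ^ 2) /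
        ((numFields K (F k) (F k) : ℝ) - 1)) +
        ∑ k ∈ T, (avg (F k) (fun w => f (y k w)) N - avg K (fun v => f (x v)) N) ^ 2 /
        ((numFields K (F k) (F k) : ℝ) - 1) := by
      rw [← Finset.sum_add_distrib]
      refine Finset.sum_congr rfl fun k _ => ?_
      rw [← add_div]
      congr 1
      ring
    have e5 : ∑ k ∈ T, (avg (F k) (fun w => f (y k w)) N - avg K (fun v => f (x v)) N) ^ 2 /
        ((numFields K (F k) (F k) : ℝ) - 1) ≤ avg K (fun v => f (x v) ^ 2) N -
          avg K (fun v => f (x v)) N ^ 2 + η / 3 := e1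
    rw [e4]
    linarith

end Pool.Agent.Results.MP_c481b3_nt.AveragesOverDisjointFields
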