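import Pool.Agent.R386.ST.Disj

/-!
# Sato-Tate over infinitely many extensions implies Sato-Tate over the base field

`K` is a number field, `A / K` an abelian variety with Sato-Tate group `G`, and `x_v ∈ G` an element of
the class of the prime `v` (any element at the finitely many exceptional primes).  For a finite extension
`F / K` with the same Sato-Tate group (every `F` if `G` is connected; in general every `F` that is
linearly disjoint over `K` from the fixed field of the identity component of the monodromy group) the
class of `A_F` at a prime `w` of `F` of residue degree one over the prime `v` of `K` is the class of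
`x_v`; the other primes of `F` have density zero.  This is the only property of abelian varieties that is
used, and the theorem is about arbitrary maps `x` from the primes of `K` to a compact group `G` and their
base changes to extensions of `K` (`BaseChange`).

Q1 for `A` over one finite extension of `K` is not known to imply Q1 for `A` over `K`.  The theorem says
that Q1 for `A` over infinitely many pairwise linearly disjoint extensions of `K` of bounded degree (for
instance infinitely many quadratic extensions, infinitely many non-conjugate cubic extensions) implies Q1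
for `A` over `K`.  So if Q1 fails for `A / K`, then it fails for `A` over all but finitely many quadratic
extensions of `K`.  The degrees may be unbounded: `numFields K F F`, the number of fields whose product
is `F ⊗_K F`, is the rank of the permutation group of `F / K`; it is at most `[F : K]`, and it is `2` for
doubly transitive groups, in particular for extensions of degree `n` with the Galois group `S_n`.

More generally Q1 for `A` over the `F_k` implies Q1 for `A` over `E` if the permutation character of
`E / K` is a limit in quadratic mean of real linear combinations of those of the `F_k / K`.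
-/

set_option autoImplicit false

namespace Pool.Agent.Results.MP_c481b3_nt.DescentFromManyFields

open NumberField IsDedekindDomain Filter Topology MeasureTheory
open scoped TensorProduct

/-- The average of `φ` over the primes of `F` of norm at most `N`. -/
noncomputable def avg (F : Type) [Field F] [NumberField F] (φ : HeightOneSpectrum (𝓞 F) → ℝ)
    (N : ℕ) : ℝ :=
  (∑ᶠ w : {w : HeightOneSpectrum (𝓞 F) // Ideal.absNorm w.asIdeal ≤ N}, φ w.1) /
    (Nat.card {w : HeightOneSpectrum (𝓞 F) // Ideal.absNorm w.asIdeal ≤ N} : ℝ)

/-- The number of fields whose product is `F ⊗_K F'`. -/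
noncomputable def numFields (K F F' : Type) [Field K] [Field F] [Field F'] [Algebra K F]
    [Algebra K F'] : ℕ := Nat.card (MaximalSpectrum (F ⊗[K] F'))

/-- The square of the distance in quadratic mean between `∑_{k ∈ T} c_k π_k` and `π_E`, where `π_k` and
`π_E` are the permutation characters of `F_k / K` and of `E / K`; the mean value of the product of the
permutation characters of `F / K` and `F' / K` is `numFields K F F'`. -/
noncomputable def distSq (K : Type) [Field K] {κ : Type} (F : κ → Type) [∀ k, Field (F k)]
    [∀ k, Algebra K (F k)] (E : Type) [Field E] [Algebra K E] (T : Finset κ) (c : κ → ℝ) : ℝ :=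
  ∑ k ∈ T, ∑ l ∈ T, c k * c l * (numFields K (F k) (F l) : ℝ) -
    2 * ∑ k ∈ T, c k * (numFields K (F k) E : ℝ) + numFields K E E

section
variable {K F : Type} [Field K] [NumberField K] [Field F] [NumberField F] [Algebra K F]

/-- `y w` is a conjugate of `x v` for all but finitely many primes `w` of `F` of residue degree one over
the prime `v` of `K` below `w`. -/
def BaseChange {G : Type} [Group G] (x : HeightOneSpectrum (𝓞 K) → G)
    (y : HeightOneSpectrum (𝓞 F) → G) : Prop :=
  ∃ S : Finset (HeightOneSpectrum (𝓞 F)), ∀ w, w ∉ S → ∀ v : HeightOneSpectrum (𝓞 K),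
    w.asIdeal.comap (algebraMap (𝓞 K) (𝓞 F)) = v.asIdeal →
    Ideal.absNorm w.asIdeal = Ideal.absNorm v.asIdeal → ∃ b : G, y w = b * x v * b⁻¹

end

/-- The classes of the `y w` are equidistributed for `μ`. -/
def Equidistributed {F : Type} [Field F] [NumberField F] {G : Type} [Group G] [TopologicalSpace G]
    [MeasurableSpace G] (y : HeightOneSpectrum (𝓞 F) → G) (μ : Measure G) : Prop :=
  ∀ f : G → ℝ, Continuous f → (∀ a b, f (b * a * b⁻¹) = f a) →
    Tendsto (avg F fun w => f (y w)) atTop (𝓝 (∫ a, f a ∂μ))

section Bridge

/-- the same for functions -/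
def FunBaseChange {K F : Type} [Field K] [NumberField K] [Field F] [NumberField F] [Algebra K F]
    (h : HeightOneSpectrum (𝓞 K) → ℝ) (g : HeightOneSpectrum (𝓞 F) → ℝ) : Prop :=
  ∃ S : Finset (HeightOneSpectrum (𝓞 F)), ∀ w, w ∉ S → ∀ v : HeightOneSpectrum (𝓞 K),
    w.asIdeal.comap (algebraMap (𝓞 K) (𝓞 F)) = v.asIdeal →
    Ideal.absNorm w.asIdeal = Ideal.absNorm v.asIdeal → g w = h v

theorem bc_of {K F : Type} [Field K] [NumberField K] [Field F] [NumberField F] [Algebra K F]
    {G : Type} [Group G] {x : HeightOneSpectrum (𝓞 K) → G} {y : HeightOneSpectrum (𝓞 F) → G}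
    (hbc : BaseChange x y) {f : G → ℝ} (hf : ∀ a b, f (b * a * b⁻¹) = f a) :
    FunBaseChange (fun v => f (x v)) (fun w => f (y w)) := by
  obtain ⟨S, hS⟩ := hbc
  refine ⟨S, fun w hw v h1 h2 => ?_⟩
  obtain ⟨b, hb⟩ := hS w hw v h1 h2
  simp only
  rw [hb, hf]

theorem exists_bd {G : Type} [TopologicalSpace G] [CompactSpace G] {f : G → ℝ}
    (hf : Continuous f) : ∃ B : ℝ, ∀ a, |f a| ≤ B := by
  obtain ⟨B, hB⟩ := isCompact_univ.exists_bound_of_continuousOn hf.continuousOn
  exact ⟨B, fun a => hB a (Set.mem_univ a)⟩

end Bridge

/-- **Descent of the Sato-Tate law.**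

Let `F_k` (`k ∈ κ`) be finite extensions of the number field `K`, `G` a compact group, `x` a map from the
primes of `K` to `G` and `y_k` a base change of `x` to `F_k`.

1. Let `E` be a finite extension of `K` such that for every `ε > 0` some real linear combination of
permutation characters of the `F_k / K` has distance less than `ε` (in quadratic mean) from the
permutation character of `E / K`.  If all `y_k` are equidistributed for `μ`, then so is every base change
of `x` to `E`.
2. Let the `F_k` be pairwise linearly disjoint over `K` and `∑_k 1 / r_k = ∞`, where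
`r_k = numFields K F_k F_k` (`1 ≤ r_k ≤ [F_k : K]`, so that this holds for infinitely many extensions of
bounded degree).  If all `y_k` are equidistributed for `μ`, then so is `x`. -/
theorem result (K : Type) [Field K] [NumberField K] (κ : Type) (F : κ → Type)
    [∀ k, Field (F k)] [∀ k, NumberField (F k)] [∀ k, Algebra K (F k)]
    (G : Type) [Group G] [TopologicalSpace G] [CompactSpace G] [MeasurableSpace G]
    (μ : Measure G) (x : HeightOneSpectrum (𝓞 K) → G)
    (y : ∀ k, HeightOneSpectrum (𝓞 (F k)) → G) (hbc : ∀ k, BaseChange x (y k))
    (hy : ∀ k, Equidistributed (y k) μ) :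
    (∀ (E : Type) [Field E] [NumberField E] [Algebra K E],
      (∀ ε : ℝ, 0 < ε → ∃ (T : Finset κ) (c : κ → ℝ), distSq K F E T c < ε) →
      ∀ z : HeightOneSpectrum (𝓞 E) → G, BaseChange x z → Equidistributed z μ) ∧
    (∀ k, 1 ≤ numFields K (F k) (F k) ∧ numFields K (F k) (F k) ≤ Module.finrank K (F k)) ∧
    ((∀ k l, k ≠ l → IsField (F k ⊗[K] F l)) →
      (¬ Summable fun k => (1 : ℝ) / (numFields K (F k) (F k) : ℝ)) → Equidistributed x μ) := by
  refine ⟨?_, fun k => ⟨Pool.Agent.R386.ST.nf_pos K (F k) (F k),
    Pool.Agent.R386.ST.nf_le K (F k) (F k)⟩, ?_⟩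
  · intro E _ _ _ happ z hbcE f hf hcl
    obtain ⟨B, hB⟩ := exists_bd hf
    refine Pool.Agent.R386.ST.descent_const F E (h := fun v => f (x v))
      (g := fun k w => f (y k w)) (gE := fun v => f (z v)) (B := B) Set.univ
      (fun ε hε => ?_)
      (fun v => hB _) (fun k w => hB _) (fun v => hB _)
      (fun k => bc_of (hbc k) hcl) (bc_of hbcE hcl) _ (fun k _ => hy k f hf hcl)
    obtain ⟨T, c, hc⟩ := happ ε hε
    exact ⟨T, Set.subset_univ _, c, hc⟩
  · intro hdisj hsum f hf hcl
    obtain ⟨B, hB⟩ := exists_bd hf
    refine Pool.Agent.R386.ST.descent_const F K (h := fun v => f (x v))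
      (g := fun k w => f (y k w)) (gE := fun v => f (x v)) (B := B) Set.univ
      (fun ε hε => ?_) (fun v => hB _) (fun k w => hB _) (fun v => hB _)
      (fun k => bc_of (hbc k) hcl) ?_ _ (fun k _ => hy k f hf hcl)
    · obtain ⟨T, c, hc⟩ := Pool.Agent.R386.ST.approx_disj K F hdisj hsum hε
      exact ⟨T, Set.subset_univ _, c, hc⟩
    · refine ⟨∅, fun w _ v h1 _ => ?_⟩
      have h2 : w = v := by
        refine HeightOneSpectrum.ext ?_
        rw [← h1]
        exact (Ideal.comap_id _).symm
      rw [h2]

end Pool.Agent.Results.MP_c481b3_nt.DescentFromManyFields
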