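import Pool.Agent.R386.JL.Law

/-!
# The joint law of the Frobenius classes of an abelian variety and of linearly disjoint Galois fields

`K` is a number field, `A / K` an abelian variety, `X` the space of conjugacy classes of its Sato-Tate
group (or of `USp(2g)`) and `x_v ∈ X` the class of the prime `v` (any class at the finitely many
exceptional primes).  The finite Galois extensions of `K` with Galois group `Γ` are given by the surjective
homomorphisms `r : Gal(K̄/K) → Γ` with open kernel, and `r (σ_v)` is the Frobenius element in `Γ`, up to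
conjugation, if `σ_v` is a Frobenius element at `v`.

The Sato-Tate conjecture for `A` over the subfields of a Galois extension `M / K` whose Sato-Tate group is
that over `K` says that the pair of `x_v` and of the Frobenius element in `Gal(M/K)` is equidistributed
for the product of the Haar measures; in particular the two are asymptotically independent.  We show
without any hypothesis on `A` that in every family of pairwise linearly disjoint Galois extensions
`M_k / K`, with any Galois groups, the classes `x_v` are nearly independent of the Frobenius elements of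
`M_k` for all `k` but a number of exceptions that is bounded in terms of the precision only: the joint law
at the scale `N` is within `ε` of the product of the law of the `x_v` at the scale `N` and of the uniform
law of `Gal(M_k/K)`, for `N` larger than a bound that depends only on the fields and not on `A`.  If the
`x_v` are equidistributed (Q1 over `K`), the joint law is within `ε` of that predicted by Q1.
-/

set_option autoImplicit false

namespace Pool.Agent.Results.MP_c481b3_nt.JointLawDisjointFields

open NumberField IsDedekindDomain Filter Topology MeasureTheory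

/-- The average of `φ` over the primes of `K` of norm at most `N`. -/
noncomputable def avg (K : Type) [Field K] [NumberField K] (φ : HeightOneSpectrum (𝓞 K) → ℝ)
    (N : ℕ) : ℝ :=
  (∑ᶠ v : {v : HeightOneSpectrum (𝓞 K) // Ideal.absNorm v.asIdeal ≤ N}, φ v.1) /
    (Nat.card {v : HeightOneSpectrum (𝓞 K) // Ideal.absNorm v.asIdeal ≤ N} : ℝ)

section
variable {K : Type} [Field K] [NumberField K]

/-- `σ` is a Frobenius element at the prime `v` of `K`: there is a maximal ideal `Q` above `v` of the
ring of all algebraic integers with `σ x ≡ x ^ N(v)` modulo `Q` for all `x`. -/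
def IsFrobenius (v : HeightOneSpectrum (𝓞 K)) (σ : Gal(AlgebraicClosure K/K)) : Prop :=
  ∃ Q : Ideal (𝓞 (AlgebraicClosure K)), Q.IsMaximal ∧
    Q.comap (algebraMap (𝓞 K) (𝓞 (AlgebraicClosure K))) = v.asIdeal ∧
    ∀ x : 𝓞 (AlgebraicClosure K), σ • x - x ^ Ideal.absNorm v.asIdeal ∈ Q

/-- The `r k` are the restrictions to pairwise linearly disjoint finite Galois extensions of `K` with the
Galois groups `Γ k`. -/
structure LinearlyDisjoint {κ : Type} {Γ : κ → Type} [∀ k, Group (Γ k)]
    (r : ∀ k, Gal(AlgebraicClosure K/K) →* Γ k) : Prop where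
  surjective : ∀ k, Function.Surjective (r k)
  disjoint : ∀ k l, k ≠ l → Function.Surjective ((r k).prod (r l))
  isOpen_ker : ∀ k, IsOpen ((r k).ker : Set Gal(AlgebraicClosure K/K))

variable {X : Type} [TopologicalSpace X] {Γ : Type} [Group Γ] [Fintype Γ]

/-- `F (γ, a)` is a function on `Γ × X`, invariant under conjugation of `γ`, whose restrictions to the
`{γ} × X` are in `𝓕`. -/
def IsTest (𝓕 : Set C(X, ℝ)) (F : Γ → C(X, ℝ)) : Prop :=
  (∀ γ, F γ ∈ 𝓕) ∧ ∀ γ δ, F (δ * γ * δ⁻¹) = F γ

/-- The average at the scale `N` of `F` at the pairs of the Frobenius element in `Γ` and of `x v`. -/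
noncomputable def jointAvg (r : Gal(AlgebraicClosure K/K) →* Γ)
    (σ : HeightOneSpectrum (𝓞 K) → Gal(AlgebraicClosure K/K))
    (x : HeightOneSpectrum (𝓞 K) → X) (F : Γ → C(X, ℝ)) (N : ℕ) : ℝ :=
  avg K (fun v => F (r (σ v)) (x v)) N

/-- The average at the scale `N` of the mean value of `F` over `Γ × {x v}`. -/
noncomputable def productAvg (x : HeightOneSpectrum (𝓞 K) → X) (F : Γ → C(X, ℝ)) (N : ℕ) : ℝ :=
  avg K (fun v => (∑ γ, F γ (x v)) / (Fintype.card Γ : ℝ)) N

end

open Classical in
/-- **The joint law with linearly disjoint Galois extensions.**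

Let `X` be a compact space, `𝓕` a compact set of continuous functions on `X` and `ε > 0`.  There is a
number `B` such that for every number field `K`, every finite family of pairwise linearly disjoint finite
Galois extensions `M_k` of `K` with Galois groups `Γ_k`, and all choices `σ_v` of Frobenius elements:

1. for all large `N` and all maps `x` from the primes of `K` to `X`, there are at most `B` indices `k`
for which some test function `F` on `Γ_k × X` has averages at the scale `N` for the pairs
`(r_k (σ_v), x v)` and for the product law that differ by more than `ε`;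

2. if the averages of `f (x v)` tend to `∫ f dμ` for all `f ∈ 𝓕`, for a probability measure `μ` on `X`,
then for all large `N` there are at most `B` indices `k` for which the average of some test function `F`
at the pairs `(r_k (σ_v), x v)` differs from its integral for the product of the uniform measure on `Γ_k`
and `μ` by more than `ε`. -/
theorem result (X : Type) [TopologicalSpace X] [CompactSpace X] (𝓕 : Set C(X, ℝ))
    (h𝓕 : IsCompact 𝓕) (ε : ℝ) (hε : 0 < ε) : ∃ B : ℕ,
    ∀ (K : Type) [Field K] [NumberField K] (κ : Type) [Fintype κ] (Γ : κ → Type)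
      [∀ k, Group (Γ k)] [∀ k, Fintype (Γ k)] (r : ∀ k, Gal(AlgebraicClosure K/K) →* Γ k),
      LinearlyDisjoint r →
      ∀ σ : HeightOneSpectrum (𝓞 K) → Gal(AlgebraicClosure K/K), (∀ v, IsFrobenius v (σ v)) →
      (∀ᶠ N : ℕ in atTop, ∀ x : HeightOneSpectrum (𝓞 K) → X,
        (Finset.univ.filter fun k => ∃ F : Γ k → C(X, ℝ), IsTest 𝓕 F ∧
          ε < |jointAvg (r k) σ x F N - productAvg x F N|).card ≤ B) ∧
      (∀ [MeasurableSpace X] [BorelSpace X] (μ : Measure X) [IsProbabilityMeasure μ]
        (x : HeightOneSpectrum (𝓞 K) → X),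
        (∀ f ∈ 𝓕, Tendsto (avg K fun v => f (x v)) atTop (𝓝 (∫ a, f a ∂μ))) →
        ∀ᶠ N : ℕ in atTop,
        (Finset.univ.filter fun k => ∃ F : Γ k → C(X, ℝ), IsTest 𝓕 F ∧
          ε < |jointAvg (r k) σ x F N -
            (∑ γ, ∫ a, F γ a ∂μ) / (Fintype.card (Γ k) : ℝ)|).card ≤ B) := by
  obtain ⟨B, hB⟩ := Pool.Agent.R386.JL.law X 𝓕 h𝓕 (show 0 < ε / 2 by positivity)
  refine ⟨B, fun K _ _ κ _ Γ _ _ r hr σ hσ => ?_⟩
  have h1 := hB K κ Γ r ⟨hr.surjective, hr.disjoint, hr.isOpen_ker⟩ σ hσ
  refine ⟨?_, ?_⟩
  · filter_upwards [h1] with N h1 x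
    refine (Finset.card_le_card fun k hk => ?_).trans (h1 x)
    obtain ⟨F, hF, hdev⟩ := (Finset.mem_filter.1 hk).2
    refine Finset.mem_filter.2 ⟨Finset.mem_univ _, F, hF.1, hF.2, ?_⟩
    have hdev' : ε < |avg K (fun v => F (r k (σ v)) (x v)) N -
        avg K (fun v => (∑ γ, F γ (x v)) / (Fintype.card (Γ k) : ℝ)) N| := hdev
    have : ε / 2 < ε := by linarith
    exact this.trans hdev'
  · intro _ _ μ _ x hx
    have h2 := Pool.Agent.R386.JL.unif X 𝓕 h𝓕 (show 0 < ε / 2 by positivity) μ x hx
    filter_upwards [h1, h2] with N h1 h2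
    refine (Finset.card_le_card fun k hk => ?_).trans (h1 x)
    obtain ⟨F, hF, hdev⟩ := (Finset.mem_filter.1 hk).2
    refine Finset.mem_filter.2 ⟨Finset.mem_univ _, F, hF.1, hF.2, ?_⟩
    have hdev' : ε < |avg K (fun v => F (r k (σ v)) (x v)) N -
        (∑ γ, ∫ a, F γ a ∂μ) / (Fintype.card (Γ k) : ℝ)| := hdev
    have hc : (0 : ℝ) < Fintype.card (Γ k) := Pool.Agent.R386.JL.card_pos' (Γ k)
    have h3 : avg K (fun v => (∑ γ, F γ (x v)) / (Fintype.card (Γ k) : ℝ)) N =
        (∑ γ, avg K (fun v => F γ (x v)) N) / (Fintype.card (Γ k) : ℝ) := by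
      have e1 : (fun v : HeightOneSpectrum (𝓞 K) =>
          (∑ γ, F γ (x v)) / (Fintype.card (Γ k) : ℝ)) =
          fun v => ((Fintype.card (Γ k) : ℝ)⁻¹) * ∑ γ, F γ (x v) := by
        funext v
        rw [div_eq_inv_mul]
      have e2 := Pool.Agent.R386.JL.mean_mul (K := K) ((Fintype.card (Γ k) : ℝ)⁻¹)
        (fun v => ∑ γ, F γ (x v)) N
      have e3 := Pool.Agent.R386.JL.mean_sum (K := K) Finset.univ (fun γ v => F γ (x v)) N
      rw [e3] at e2
      rw [e1, div_eq_inv_mul]
      exact e2
    have h4 : |(∑ γ, avg K (fun v => F γ (x v)) N) / (Fintype.card (Γ k) : ℝ) -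
        (∑ γ, ∫ a, F γ a ∂μ) / (Fintype.card (Γ k) : ℝ)| ≤ ε / 2 := by
      rw [← sub_div, ← Finset.sum_sub_distrib, abs_div, abs_of_pos hc, div_le_iff₀ hc]
      refine (Finset.abs_sum_le_sum_abs _ _).trans
        ((Finset.sum_le_sum fun γ _ => h2 (F γ) (hF.1 γ)).trans ?_)
      rw [Finset.sum_const, Finset.card_univ, nsmul_eq_mul, mul_comm]
    show ε / 2 < |avg K (fun v => F (r k (σ v)) (x v)) N -
        avg K (fun v => (∑ γ, F γ (x v)) / (Fintype.card (Γ k) : ℝ)) N|
    rw [h3]
    set a := avg K (fun v => F (r k (σ v)) (x v)) N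
    set b := (∑ γ, avg K (fun v => F γ (x v)) N) / (Fintype.card (Γ k) : ℝ)
    set c := (∑ γ, ∫ a, F γ a ∂μ) / (Fintype.card (Γ k) : ℝ)
    have h5 : a - c = (a - b) + (b - c) := by ring
    rw [h5] at hdev'
    have h6 := abs_add_le (a - b) (b - c)
    linarith

end Pool.Agent.Results.MP_c481b3_nt.JointLawDisjointFields
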