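import Pool.Agent.R386.PS.Fam2

/-!
# The quadratic twists of an abelian variety: a power saving for almost all twists

`A / K` is an abelian variety of dimension `g` over a number field, `G` its Sato-Tate group, or
`USp(2g)`, or another subgroup containing the Sato-Tate group, `x_v ∈ G` an element of the class of the
prime `v` (any element at the finitely many primes `v ∈ T` of bad reduction), `z = -1`.  The class of the
quadratic twist `A_n` of `A` by `K(√n) / K`, `n ≥ 1` an integer, at a prime `v ∤ 2n` outside `T` is that of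
`x_v` if `n` is a square modulo `v`, and that of `-x_v` if not.  This is the only property of abelian
varieties that is used.  The odd class functions, those with `f (-a) = -f a`, have mean zero for the Haar
measure of a group containing `-1`, and Sato-Tate groups contain `-1`; so Q1 says in particular that for
every class function `f` the averages of `f` over the twist `A_n` and of its even part
`(f (a) + f (-a)) / 2` over `A` have the same limit.

We show that for almost all twists the two averages differ by at most a negative power of `n` at all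
scales between a power of `n` and the exponential of a power of `n`, uniformly in `A`, in `G` and in all
the functions of any set of at most a power of `n` class functions `G → [-1, 1]`.
-/

set_option autoImplicit false

namespace Pool.Agent.Results.MP_c481b3_nt.OddTwistsPowerSaving

open NumberField IsDedekindDomain

/-- The average of `φ` over the primes of `K` of norm at most `X`. -/
noncomputable def avg (K : Type) [Field K] [NumberField K] (φ : HeightOneSpectrum (𝓞 K) → ℝ)
    (X : ℕ) : ℝ :=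
  (∑ᶠ v : {v : HeightOneSpectrum (𝓞 K) // Ideal.absNorm v.asIdeal ≤ X}, φ v.1) /
    (Nat.card {v : HeightOneSpectrum (𝓞 K) // Ideal.absNorm v.asIdeal ≤ X} : ℝ)

section
variable {K : Type} [Field K] [NumberField K] {G : Type} [Group G]

open Classical in
/-- `y` is the twist of `x` by the integer `n`: for the primes `v ∤ 2n` outside `T`, `y v` is a conjugate
of `x v` if `n` is a square modulo `v`, and of `z (x v)` if not. -/
def IsTwist (z : G) (T : Finset (HeightOneSpectrum (𝓞 K))) (n : ℕ)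
    (x y : HeightOneSpectrum (𝓞 K) → G) : Prop :=
  ∀ v, v ∉ T → 2 * (n : 𝓞 K) ∉ v.asIdeal → ∃ b : G, y v = b *
    (if IsSquare (Ideal.Quotient.mk v.asIdeal (n : 𝓞 K)) then x v else z * x v) * b⁻¹

/-- For some integer `X` with `L ≤ log X ≤ U` and some `f ∈ ℱ` the averages over the primes of norm at
most `X` of `f (y v)` and of `(f (x v) + f (z (x v))) / 2` differ by more than `ε`. -/
def Deviates (ℱ : Finset (G → ℝ)) (z : G) (x y : HeightOneSpectrum (𝓞 K) → G) (ε L U : ℝ) : Prop :=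
  ∃ X : ℕ, L ≤ Real.log X ∧ Real.log X ≤ U ∧ ∃ f ∈ ℱ,
    ε < |avg K (fun v => f (y v)) X - avg K (fun v => (f (x v) + f (z * x v)) / 2) X|

end

open Classical in
/-- **Power saving for almost all twists.**

Let `K` be a number field and `C > 1`.

1. Let `α > 0`, `1/2 + 2α < θ < 1` and `θ (1 - θ) < C (2θ - 1)`.  For all small `κ > 0` (in terms of
`α, θ, C`) and all large `Y`: for all `1 ≤ l ≤ exp √Y`, all groups `G`, all sets `ℱ` of at most `Y^κ`
class functions `G → [-1, 1]`, all `z ∈ G`, all `x`, all sets `T` of at most `Y` primes and all twists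
`y_q` of `x` by `l q` outside `T`, there are at most `Y^θ` primes `q ≤ Y` for which the averages of some
`f ∈ ℱ` over `y_q` and of its even part over `x` differ by more than `Y^(-κ)` at some scale `X` with
`Y^C ≤ X ≤ exp (Y^α)`.

2. For all small `κ > 0` (in terms of `C`), all `u ≥ 1` and all large `N`: for all `G`, all sets `ℱ` of
at most `N^(κ/u)` class functions `G → [-1, 1]`, all `z`, `x`, all `T` with at most `N` elements and all
twists `y_n` of `x` by `n` outside `T`, there are at most `N^(1 - κ/u)` integers `n ≤ N` with a prime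
factor larger than `N^(1/u)` for which the averages differ by more than `N^(-κ/u)` at some scale `X` with
`N^C ≤ X ≤ exp (N^(κ/u))`.

3. Let `1/2 < θ < 1` and `θ (1 - θ) < C (2θ - 1)`.  There is `c > 0` such that for all small `κ > 0` and
all large `N`: for all `1 ≤ l ≤ exp √N`, all `G`, `ℱ` with at most `N^κ` elements, `z`, `x`, `T` with at
most `N` elements and all twists `y_n` of `x` by `l n` outside `T`, there are at most `N^θ` integers
`n ≤ N` for which the averages differ by more than `N^(-κ)` at some scale `X` with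
`N^C ≤ X ≤ exp ((log N)^(1 + c))`. -/
theorem result (K : Type) [Field K] [NumberField K] (C : ℝ) (hC : 1 < C) :
    (∀ α θ : ℝ, 0 < α → 1 / 2 + 2 * α < θ → θ < 1 → θ * (1 - θ) < C * (2 * θ - 1) →
      ∃ k : ℝ, 0 < k ∧ ∀ κ : ℝ, 0 < κ → κ < k → ∃ Y₀ : ℕ, ∀ Y : ℕ, Y₀ ≤ Y →
      ∀ l : ℕ, 0 < l → Real.log l ≤ √Y →
      ∀ (G : Type) [Group G] (ℱ : Finset (G → ℝ)), (ℱ.card : ℝ) ≤ (Y : ℝ) ^ κ →
        (∀ f ∈ ℱ, ∀ a, |f a| ≤ 1) → (∀ f ∈ ℱ, ∀ a b, f (b * a * b⁻¹) = f a) →
      ∀ (z : G) (x : HeightOneSpectrum (𝓞 K) → G) (y : ℕ → HeightOneSpectrum (𝓞 K) → G)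
        (T : Finset (HeightOneSpectrum (𝓞 K))), T.card ≤ Y →
        (∀ q, q.Prime → q ≤ Y → IsTwist z T (l * q) x (y q)) →
        (((Finset.Icc 1 Y).filter fun q => q.Prime ∧
          Deviates ℱ z x (y q) ((Y : ℝ) ^ (-κ)) (C * Real.log Y) ((Y : ℝ) ^ α)).card : ℝ) ≤
            (Y : ℝ) ^ θ) ∧
    (∃ k : ℝ, 0 < k ∧ ∀ κ : ℝ, 0 < κ → κ < k → ∀ u : ℕ, 0 < u → ∃ N₀ : ℕ, ∀ N : ℕ, N₀ ≤ N →
      ∀ (G : Type) [Group G] (ℱ : Finset (G → ℝ)), (ℱ.card : ℝ) ≤ (N : ℝ) ^ (κ / u) →
        (∀ f ∈ ℱ, ∀ a, |f a| ≤ 1) → (∀ f ∈ ℱ, ∀ a b, f (b * a * b⁻¹) = f a) →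
      ∀ (z : G) (x : HeightOneSpectrum (𝓞 K) → G) (y : ℕ → HeightOneSpectrum (𝓞 K) → G)
        (T : Finset (HeightOneSpectrum (𝓞 K))), T.card ≤ N →
        (∀ n, 0 < n → n ≤ N → IsTwist z T n x (y n)) →
        (((Finset.Icc 1 N).filter fun n =>
          (∃ p : ℕ, p.Prime ∧ p ∣ n ∧ (N : ℝ) ^ (1 / (u : ℝ)) < p) ∧
          Deviates ℱ z x (y n) ((N : ℝ) ^ (-κ / u)) (C * Real.log N)
            ((N : ℝ) ^ (κ / u))).card : ℝ) ≤ (N : ℝ) ^ (1 - κ / u)) ∧
    (∀ θ : ℝ, 1 / 2 < θ → θ < 1 → θ * (1 - θ) < C * (2 * θ - 1) →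
      ∃ k c : ℝ, 0 < k ∧ 0 < c ∧ ∀ κ : ℝ, 0 < κ → κ < k → ∃ N₀ : ℕ, ∀ N : ℕ, N₀ ≤ N →
      ∀ l : ℕ, 0 < l → Real.log l ≤ √N →
      ∀ (G : Type) [Group G] (ℱ : Finset (G → ℝ)), (ℱ.card : ℝ) ≤ (N : ℝ) ^ κ →
        (∀ f ∈ ℱ, ∀ a, |f a| ≤ 1) → (∀ f ∈ ℱ, ∀ a b, f (b * a * b⁻¹) = f a) →
      ∀ (z : G) (x : HeightOneSpectrum (𝓞 K) → G) (y : ℕ → HeightOneSpectrum (𝓞 K) → G)
        (T : Finset (HeightOneSpectrum (𝓞 K))), T.card ≤ N →
        (∀ n, 0 < n → n ≤ N → IsTwist z T (l * n) x (y n)) →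
        (((Finset.Icc 1 N).filter fun n =>
          Deviates ℱ z x (y n) ((N : ℝ) ^ (-κ)) (C * Real.log N)
            ((Real.log N) ^ (1 + c))).card : ℝ) ≤ (N : ℝ) ^ θ) :=
  ⟨fun _ _ hα hθ hθ1 hCθ => Pool.Agent.R386.PS.famPSPrimes K hC hα hθ hθ1 hCθ,
    Pool.Agent.R386.PS.famPSInts K hC,
    fun _ hθ hθ1 hCθ => Pool.Agent.R386.PS.famPSLow K hC hθ hθ1 hCθ⟩

end Pool.Agent.Results.MP_c481b3_nt.OddTwistsPowerSaving
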